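import Pool.Agent.ZPU.StmtsB

/-!
# ZPU, row CNT: the number of non coprime pairs over `F_p`
-/

set_option autoImplicit false

namespace Pool.Agent.ZPU.H95

open Polynomial Pool.Agent.ZPT Pool.Agent.ZP3

theorem pv_coeff {k : Type} [Field k] {d : ℕ} (a : Fin (d + 1) → k) (i : Fin (d + 1)) :
    (pv a).coeff (i : ℕ) = a i := by
  unfold pv
  rw [finsetSum_coeff, Finset.sum_eq_single i]
  · rw [coeff_C_mul, coeff_X_pow_self, mul_one]
  · intro j _ hj
    rw [coeff_C_mul, coeff_X_pow, if_neg, mul_zero]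
    exact fun h => hj (Fin.ext h.symm)
  · intro h
    exact absurd (Finset.mem_univ i) h

theorem pv_deg {k : Type} [Field k] {d : ℕ} (a : Fin (d + 1) → k) : (pv a).natDegree ≤ d := by
  unfold pv
  refine natDegree_sum_le_of_forall_le _ _ fun i _ => ?_
  exact (natDegree_C_mul_X_pow_le _ _).trans (Nat.lt_succ_iff.1 i.2)

theorem pv_of {k : Type} [Field k] {d : ℕ} (f : k[X]) (h : f.natDegree ≤ d) :
    pv (d := d) (fun i => f.coeff i) = f := by
  unfold pv
  rw [Fin.sum_univ_eq_sum_range (fun i => C (f.coeff i) * X ^ i) (d + 1)]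
  exact (as_sum_range_C_mul_X_pow' f (Nat.lt_succ_of_le h)).symm

/-- the parametrization -/
noncomputable def ph0 {k : Type} [Field k] (d j : ℕ)
    (t : (Fin j → k) × (Fin (d - j + 1) → k) × (Fin (d - j + 1) → k)) :
    (Fin (d + 1) → k) × (Fin (d + 1) → k) :=
  (fun i => ((X ^ j + ∑ i : Fin j, C (t.1 i) * X ^ (i : ℕ)) * pv t.2.1).coeff i,
    fun i => ((X ^ j + ∑ i : Fin j, C (t.1 i) * X ^ (i : ℕ)) * pv t.2.2).coeff i)

theorem cover {k : Type} [Field k] {d : ℕ} (w : (Fin (d + 1) → k) × (Fin (d + 1) → k))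
    (h1 : w.1 (Fin.last d) ≠ 0) (h2 : w.2 (Fin.last d) ≠ 0)
    (h3 : ¬ IsCoprime (pv w.1) (pv w.2)) :
    ∃ j ∈ Finset.Icc 1 d, ∃ t, ph0 d j t = w := by
  classical
  have e1 : (pv w.1).coeff d = w.1 (Fin.last d) := pv_coeff w.1 (Fin.last d)
  have e2 : (pv w.2).coeff d = w.2 (Fin.last d) := pv_coeff w.2 (Fin.last d)
  have n1 : (pv w.1).natDegree = d :=
    le_antisymm (pv_deg _) (le_natDegree_of_ne_zero (by rw [e1]; exact h1))
  have n2 : (pv w.2).natDegree = d :=
    le_antisymm (pv_deg _) (le_natDegree_of_ne_zero (by rw [e2]; exact h2))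
  have z1 : pv w.1 ≠ 0 := by
    intro h
    rw [h, coeff_zero] at e1
    exact h1 e1.symm
  have z2 : pv w.2 ≠ 0 := by
    intro h
    rw [h, coeff_zero] at e2
    exact h2 e2.symm
  set u0 := EuclideanDomain.gcd (pv w.1) (pv w.2) with hu0
  have hu0z : u0 ≠ 0 := by
    intro h
    exact z1 (EuclideanDomain.gcd_eq_zero_iff.1 h).1
  have hunit : ¬ IsUnit u0 := by
    intro h
    exact h3 (EuclideanDomain.gcd_isUnit_iff.1 h)
  set u := normalize u0 with hu
  have hum : u.Monic := monic_normalize hu0z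
  have hunit' : ¬ IsUnit u := fun h => hunit ((normalize_associated u0).isUnit h)
  have hd1 : u ∣ pv w.1 := (normalize_dvd_iff).2 (EuclideanDomain.gcd_dvd_left _ _)
  have hd2 : u ∣ pv w.2 := (normalize_dvd_iff).2 (EuclideanDomain.gcd_dvd_right _ _)
  obtain ⟨f, hf⟩ := hd1
  obtain ⟨g, hg⟩ := hd2
  have hf0 : f ≠ 0 := by
    rintro rfl
    exact z1 (by rw [hf, mul_zero])
  have hg0 : g ≠ 0 := by
    rintro rfl
    exact z2 (by rw [hg, mul_zero])
  have m1 : u.natDegree + f.natDegree = d := by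
    rw [← natDegree_mul hum.ne_zero hf0, ← hf, n1]
  have m2 : u.natDegree + g.natDegree = d := by
    rw [← natDegree_mul hum.ne_zero hg0, ← hg, n2]
  have m3 : 1 ≤ u.natDegree := by
    by_contra h
    have h4 : u.natDegree = 0 := by omega
    rw [hum.natDegree_eq_zero.1 h4] at hunit'
    exact hunit' isUnit_one
  refine ⟨u.natDegree, Finset.mem_Icc.2 ⟨m3, by omega⟩,
    (fun i => u.coeff i, fun i => f.coeff i, fun i => g.coeff i), ?_⟩
  have hU : X ^ u.natDegree + ∑ i : Fin u.natDegree, C (u.coeff i) * X ^ (i : ℕ) = u := by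
    rw [Fin.sum_univ_eq_sum_range (fun i => C (u.coeff i) * X ^ i) u.natDegree]
    exact hum.as_sum.symm
  have hF : pv (d := d - u.natDegree) (fun i => f.coeff i) = f := pv_of f (by omega)
  have hG : pv (d := d - u.natDegree) (fun i => g.coeff i) = g := pv_of g (by omega)
  unfold ph0
  simp only
  rw [hU, hF, hG, ← hf, ← hg]
  ext i
  · exact pv_coeff w.1 i
  · exact pv_coeff w.2 i

theorem geo (p n : ℕ) (hp : 2 ≤ p) : ∀ k : ℕ, k < n →
    ∑ j ∈ Finset.Icc 1 k, p ^ (n - j) ≤ 2 * p ^ (n - 1) := by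
  have key : ∀ k : ℕ, 1 ≤ k → k < n →
      ∑ j ∈ Finset.Icc 1 k, p ^ (n - j) + p ^ (n - k) ≤ 2 * p ^ (n - 1) := by
    intro k hk
    induction k, hk using Nat.le_induction with
    | base =>
      intro _
      rw [Finset.Icc_self, Finset.sum_singleton]
      omega
    | succ k hk ih =>
      intro hkn
      have h1 := ih (by omega)
      rw [Finset.sum_Icc_succ_top (by omega)]
      have h2 : p ^ (n - k) = p ^ (n - (k + 1)) * p := by
        rw [← pow_succ]
        congr 1
        omega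
      have h3 : 2 * p ^ (n - (k + 1)) ≤ p ^ (n - k) := by
        rw [h2, mul_comm]
        exact Nat.mul_le_mul_left _ hp
      omega
  intro k hk
  rcases Nat.eq_zero_or_pos k with h | h
  · rw [h]
    simp
  · exact le_trans (Nat.le_add_right _ _) (key k h hk)

theorem cnt : CNTStmt := by
  intro p hp d
  classical
  have : Fact p.Prime := ⟨hp⟩
  set S := {w : (Fin (d + 1) → ZMod p) × (Fin (d + 1) → ZMod p) | w.1 (Fin.last d) ≠ 0 ∧
    w.2 (Fin.last d) ≠ 0 ∧ ¬ IsCoprime (pv w.1) (pv w.2)} with hS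
  have h1 : S ⊆ ((Finset.Icc 1 d).biUnion fun j => Finset.univ.image (ph0 d j) :
      Finset ((Fin (d + 1) → ZMod p) × (Fin (d + 1) → ZMod p))) := by
    intro w hw
    obtain ⟨a1, a2, a3⟩ := hw
    obtain ⟨j, hj, t, ht⟩ := cover w a1 a2 a3
    rw [Finset.mem_coe, Finset.mem_biUnion]
    exact ⟨j, hj, Finset.mem_image.2 ⟨t, Finset.mem_univ _, ht⟩⟩
  have h2 : S.ncard ≤ ∑ j ∈ Finset.Icc 1 d, p ^ (2 * d + 2 - j) := by
    refine (Set.ncard_le_ncard h1 (Finset.finite_toSet _)).trans ?_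
    rw [Set.ncard_coe_finset]
    refine Finset.card_biUnion_le.trans (Finset.sum_le_sum fun j hj => ?_)
    refine Finset.card_image_le.trans ?_
    rw [Finset.card_univ, Fintype.card_prod, Fintype.card_prod, Fintype.card_fun, Fintype.card_fun,
      Fintype.card_fin, Fintype.card_fin, ZMod.card, ← pow_add, ← pow_add]
    have hj' := Finset.mem_Icc.1 hj
    exact (congrArg (p ^ ·) (by omega)).le
  calc S.ncard * p ≤ (∑ j ∈ Finset.Icc 1 d, p ^ (2 * d + 2 - j)) * p :=
        Nat.mul_le_mul_right p h2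
    _ = ∑ j ∈ Finset.Icc 1 d, p ^ (2 * d + 3 - j) := by
        rw [Finset.sum_mul]
        refine Finset.sum_congr rfl fun j hj => ?_
        have hj' := Finset.mem_Icc.1 hj
        rw [← pow_succ]
        congr 1
        omega
    _ ≤ 2 * p ^ (2 * d + 3 - 1) := geo p (2 * d + 3) hp.two_le d (by omega)
    _ = 2 * p ^ (2 * (d + 1)) := by
        congr 2

end Pool.Agent.ZPU.H95
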