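import Pool.Agent.ZPU.Stmts

/-!
# ZPU, row DPO: the `p`-derivation of a polynomial
-/

set_option autoImplicit false

namespace Pool.Agent.ZPU.H95

open Polynomial Pool.Agent.ZPT Pool.Agent.ZP3

theorem dpo : DPOStmt := by
  intro p hp A
  have : Fact p.Prime := ⟨hp⟩
  have hp0 : (p : ℤ) ≠ 0 := by exact_mod_cast hp.ne_zero
  constructor
  · have h1 : (A.comp (X ^ p) - A ^ p).map (Int.castRingHom (ZMod p)) = 0 := by
      rw [Polynomial.map_sub, Polynomial.map_pow, Polynomial.map_comp, Polynomial.map_pow, map_X,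
        ← expand_eq_comp_X_pow, ZMod.expand_card, sub_self]
    have h2 : C (p : ℤ) ∣ A.comp (X ^ p) - A ^ p := by
      rw [C_dvd_iff_dvd_coeff]
      intro i
      have h3 := congrArg (fun P => P.coeff i) h1
      simp only [coeff_map, coeff_zero] at h3
      exact (ZMod.intCast_zmod_eq_zero_iff_dvd _ p).1 h3
    obtain ⟨D, hD⟩ := h2
    refine ⟨D, ?_⟩
    show A.comp (X ^ p) = A ^ p + C (p : ℤ) * D
    rw [← hD]
    ring
  · intro D hD
    have h1 : A.comp (X ^ p) = A ^ p + C (p : ℤ) * D := hD
    have h2 := congrArg derivative h1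
    rw [derivative_comp, derivative_X_pow, derivative_add, derivative_pow, derivative_C_mul] at h2
    have h3 : C (p : ℤ) ≠ 0 := C_ne_zero.2 hp0
    apply mul_left_cancel₀ h3
    simp only [map_natCast] at h2 ⊢
    linear_combination -h2

end Pool.Agent.ZPU.H95
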