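import Pool.Agent.ZPU.StmtsB

/-!
# ZPU, row IND: independence modulo `p`
-/

set_option autoImplicit false

namespace Pool.Agent.ZPU.H95

open Polynomial Pool.Agent.ZPT Pool.Agent.ZP3

theorem core {k : Type} [Field k] (p : ℕ) [CharP k p] (f Y : k[X]) (r : k)
    (h0 : 0 < f.natDegree) (h1 : f.natDegree < p) (hY : IsCoprime f Y)
    (h : f ∣ C r * (derivative f * Y)) : r = 0 := by
  by_contra hr
  have hu : IsUnit (C r : k[X]) := isUnit_C.2 (isUnit_iff_ne_zero.2 hr)
  have h2 : f ∣ derivative f * Y := (hu.dvd_mul_left).1 h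
  have h3 : f ∣ derivative f := hY.dvd_of_dvd_mul_right h2
  have hf : f ≠ 0 := by
    rintro rfl
    simp at h0
  have h4 : derivative f = 0 :=
    eq_zero_of_dvd_of_degree_lt h3 (degree_derivative_lt hf)
  have h5 : (derivative f).coeff (f.natDegree - 1) = 0 := by rw [h4, coeff_zero]
  rw [coeff_derivative, Nat.sub_add_cancel h0] at h5
  have h6 : ((f.natDegree - 1 : ℕ) : k) + 1 = ((f.natDegree : ℕ) : k) := by
    rw [← Nat.cast_add_one, Nat.sub_add_cancel h0]
  rw [h6] at h5
  rcases mul_eq_zero.1 h5 with h7 | h7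
  · exact hf (leadingCoeff_eq_zero.1 h7)
  · have h8 := (CharP.cast_eq_zero_iff k p _).1 h7
    exact absurd (Nat.le_of_dvd h0 h8) (not_le.2 h1)

theorem half {k : Type} [Field k] (p : ℕ) [CharP k p] (Fa Fb Ga Gb P Y : k[X]) (r s : k)
    (heq : C r * (wr (Fa * Gb) (Fb * Ga) * P) + C s * (Y * ((Fa * Gb) * (Fb * Ga))) = 0)
    (h : (0 < Fb.natDegree ∧ Fb.natDegree < p ∧ IsCoprime Fb (Fa * Gb * Ga * P)) ∨
      (0 < Gb.natDegree ∧ Gb.natDegree < p ∧ IsCoprime Gb (Fa * Fb * Ga * P))) : r = 0 := by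
  unfold wr at heq
  simp only [derivative_mul] at heq
  rcases h with ⟨h0, h1, h2⟩ | ⟨h0, h1, h2⟩
  · refine core p Fb _ r h0 h1 h2 ⟨C r * ((derivative Fa * Gb + Fa * derivative Gb) * Ga * P -
      Fa * Gb * derivative Ga * P) + C s * (Y * (Fa * Gb * Ga)), ?_⟩
    linear_combination -heq
  · refine core p Gb _ r h0 h1 h2 ⟨C r * (Fa * (derivative Fb * Ga + Fb * derivative Ga) * P -
      derivative Fa * Fb * Ga * P) - C s * (Y * (Fa * Fb * Ga)), ?_⟩
    linear_combination heq

theorem ind : INDStmt := by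
  intro p hp d n F G hd hG a b c e hba hbc hbe hea hec
  have : Fact p.Prime := ⟨hp⟩
  have bm : ∀ A B : ℤ[X], bar p (A * B) = bar p A * bar p B := fun A B => Polynomial.map_mul _
  have dF : ∀ i, (bar p (F i)).natDegree < p := fun i =>
    (natDegree_map_le.trans (hG.dF i)).trans_lt hd
  have dG : ∀ i, (bar p (G i)).natDegree < p := fun i =>
    (natDegree_map_le.trans (hG.dG i)).trans_lt hd
  intro r s heq
  simp only [bm] at heq
  constructor
  · refine half p (bar p (F a)) (bar p (F b)) (bar p (G a)) (bar p (G b))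
      ((bar p (F c) * bar p (G e)) * (bar p (F e) * bar p (G c)))
      (wr (bar p (F c) * bar p (G e)) (bar p (F e) * bar p (G c))) r s heq ?_
    rcases hG.nc b with h | h
    · left
      refine ⟨h, dF b, ?_⟩
      exact (((hG.FF b a hba).mul_right (hG.FG b b)).mul_right (hG.FG b a)).mul_right
        (((hG.FF b c hbc).mul_right (hG.FG b e)).mul_right
          ((hG.FF b e hbe).mul_right (hG.FG b c)))
    · right
      refine ⟨h, dG b, ?_⟩
      exact (((hG.FG a b).symm.mul_right (hG.FG b b).symm).mul_right (hG.GG b a hba)).mul_right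
        (((hG.FG c b).symm.mul_right (hG.GG b e hbe)).mul_right
          ((hG.FG e b).symm.mul_right (hG.GG b c hbc)))
  · refine half p (bar p (F c)) (bar p (F e)) (bar p (G c)) (bar p (G e))
      ((bar p (F a) * bar p (G b)) * (bar p (F b) * bar p (G a)))
      (wr (bar p (F a) * bar p (G b)) (bar p (F b) * bar p (G a))) s r ?_ ?_
    · rw [add_comm]
      exact heq
    rcases hG.nc e with h | h
    · left
      refine ⟨h, dF e, ?_⟩
      exact (((hG.FF e c hec).mul_right (hG.FG e e)).mul_right (hG.FG e c)).mul_right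
        (((hG.FF e a hea).mul_right (hG.FG e b)).mul_right
          ((hG.FF e b hbe.symm).mul_right (hG.FG e a)))
    · right
      refine ⟨h, dG e, ?_⟩
      exact (((hG.FG c e).symm.mul_right (hG.FG e e).symm).mul_right (hG.GG e c hec)).mul_right
        (((hG.FG a e).symm.mul_right (hG.GG e b hbe.symm)).mul_right
          ((hG.FG b e).symm.mul_right (hG.GG e a hea)))

end Pool.Agent.ZPU.H95
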