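import Pool.Agent.ZPU.Stmts

/-!
# ZPU, row OMG: the eliminant is not zero modulo `p`
-/

set_option autoImplicit false

namespace Pool.Agent.ZPU.H95

open Polynomial Pool.Agent.ZPT Pool.Agent.ZP3

theorem root_lem (p : ℕ) [Fact p.Prime] (u v : (ZMod p)[X]) (hv : v ≠ 0)
    (h : u ^ (p - 1) = v ^ (p - 1)) : ∃ n : ℤ, u = C (n : ZMod p) * v := by
  have hp : p.Prime := Fact.out
  let L := FractionRing (ZMod p)[X]
  have hinj : Function.Injective (algebraMap (ZMod p)[X] L) := IsFractionRing.injective _ _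
  have hL : CharP L p := charP_of_injective_algebraMap hinj p
  have hv' : algebraMap (ZMod p)[X] L v ≠ 0 := by
    intro h0
    exact hv (hinj (by rw [h0, map_zero]))
  have hz : (algebraMap (ZMod p)[X] L u / algebraMap (ZMod p)[X] L v) ^ p =
      algebraMap (ZMod p)[X] L u / algebraMap (ZMod p)[X] L v := by
    have h1 : (algebraMap (ZMod p)[X] L u / algebraMap (ZMod p)[X] L v) ^ (p - 1) = 1 := by
      rw [div_pow, ← map_pow, ← map_pow, h]
      rw [map_pow]
      exact div_self (pow_ne_zero _ hv')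
    have h2 : ∀ z : L, z ^ p = z ^ (p - 1) * z := by
      intro z
      rw [← pow_succ, Nat.sub_add_cancel hp.one_le]
    rw [h2, h1, one_mul]
  rw [← Subfield.mem_bot_iff_pow_eq_self, mem_bot_iff_intCast p] at hz
  obtain ⟨n, hn⟩ := hz
  refine ⟨n, hinj ?_⟩
  rw [eq_div_iff hv'] at hn
  rw [← hn, map_mul]
  congr 1
  rw [map_intCast, map_intCast]

theorem theta (p : ℕ) [Fact p.Prime] (x y α β : (ZMod p)[X])
    (hα : derivative α = X ^ (p - 1) * derivative x ^ p - x ^ (p - 1) * derivative x)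
    (hβ : derivative β = X ^ (p - 1) * derivative y ^ p - y ^ (p - 1) * derivative y) :
    derivative (α * y ^ p - β * x ^ p) =
      X ^ (p - 1) * wr x y ^ p - (x * y) ^ (p - 1) * wr x y := by
  have hp : p.Prime := Fact.out
  have hd : ∀ f : (ZMod p)[X], derivative (f ^ p) = 0 := by
    intro f
    rw [derivative_pow, CharP.cast_eq_zero, C_0, zero_mul, zero_mul]
  have hpp : ∀ f : (ZMod p)[X], f ^ p = f ^ (p - 1) * f := by
    intro f
    rw [← pow_succ, Nat.sub_add_cancel hp.one_le]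
  rw [derivative_sub, derivative_mul, derivative_mul, hd, hd, mul_zero, mul_zero, add_zero,
    add_zero, hα, hβ]
  unfold wr
  rw [sub_pow_char, mul_pow (derivative x) y p, mul_pow x (derivative y) p, mul_pow x y (p - 1)]
  rw [hpp x, hpp y]
  ring

theorem omg (dpo : DPOStmt) : OMGStmt := by
  intro p hp A₁ B₁ A₂ B₂ a₁ b₁ a₂ b₂ hI hA₁ hB₁ hA₂ hB₂ h0
  have : Fact p.Prime := ⟨hp⟩
  have hd : ∀ f : (ZMod p)[X], derivative (f ^ p) = 0 := by
    intro f
    rw [derivative_pow, CharP.cast_eq_zero, C_0, zero_mul, zero_mul]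
  have hpp : ∀ f : (ZMod p)[X], f ^ p = f ^ (p - 1) * f := by
    intro f
    rw [← pow_succ, Nat.sub_add_cancel hp.one_le]
  have hder : ∀ A D : ℤ[X], IsDp p A D → derivative (bar p D) =
      X ^ (p - 1) * derivative (bar p A) ^ p - bar p A ^ (p - 1) * derivative (bar p A) := by
    intro A D hD
    have h1 := congrArg (bar p) ((dpo p hp A).2 D hD)
    unfold bar at h1 ⊢
    rw [Polynomial.map_sub, Polynomial.map_mul, Polynomial.map_mul, Polynomial.map_pow,
      Polynomial.map_pow, Polynomial.map_comp, Polynomial.map_pow, map_X, ← derivative_map,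
      ← derivative_map, ← expand_eq_comp_X_pow, ZMod.expand_card] at h1
    exact h1
  have bw : ∀ A B : ℤ[X], bar p (wr A B) = wr (bar p A) (bar p B) := by
    intro A B
    unfold bar wr
    rw [Polynomial.map_sub, Polynomial.map_mul, Polynomial.map_mul, ← derivative_map,
      ← derivative_map]
  have h1 : (bar p a₁ * bar p B₁ ^ p - bar p b₁ * bar p A₁ ^ p) * wr (bar p A₂) (bar p B₂) ^ p -
      (bar p a₂ * bar p B₂ ^ p - bar p b₂ * bar p A₂ ^ p) * wr (bar p A₁) (bar p B₁) ^ p = 0 := by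
    rw [← h0, ← bw, ← bw]
    unfold bar
    simp only [Polynomial.map_sub, Polynomial.map_mul, Polynomial.map_pow]
  have h2 := congrArg derivative h1
  rw [derivative_sub, derivative_mul, derivative_mul, hd, hd, mul_zero, mul_zero, add_zero,
    add_zero, theta p _ _ _ _ (hder _ _ hA₁) (hder _ _ hB₁),
    theta p _ _ _ _ (hder _ _ hA₂) (hder _ _ hB₂), derivative_zero] at h2
  unfold Ind at hI
  clear h1 h0 hder bw hA₁ hA₂ hB₁ hB₂
  generalize bar p A₁ = x₁ at hI h2
  generalize bar p B₁ = y₁ at hI h2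
  generalize bar p A₂ = x₂ at hI h2
  generalize bar p B₂ = y₂ at hI h2
  generalize wr x₁ y₁ = W₁ at hI h2
  generalize wr x₂ y₂ = W₂ at hI h2
  have hW₁ : W₁ ≠ 0 := by
    rintro rfl
    exact one_ne_zero (hI 1 0 (by rw [C_0]; ring)).1
  have hW₂ : W₂ ≠ 0 := by
    rintro rfl
    exact one_ne_zero (hI 0 1 (by rw [C_0]; ring)).2
  have key : (x₂ * y₂ * W₁) ^ (p - 1) = (x₁ * y₁ * W₂) ^ (p - 1) := by
    have h3 : (x₂ * y₂ * W₁) ^ (p - 1) * (W₁ * W₂) = (x₁ * y₁ * W₂) ^ (p - 1) * (W₁ * W₂) := by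
      rw [hpp W₁, hpp W₂] at h2
      rw [mul_pow _ W₁, mul_pow _ W₂]
      linear_combination h2
    exact mul_right_cancel₀ (mul_ne_zero hW₁ hW₂) h3
  by_cases hv : x₁ * y₁ * W₂ = 0
  · rw [hv, zero_pow (Nat.sub_ne_zero_of_lt hp.one_lt)] at key
    have hu : x₂ * y₂ * W₁ = 0 := pow_eq_zero_iff (Nat.sub_ne_zero_of_lt hp.one_lt) |>.1 key
    exact one_ne_zero (hI 1 0 (by rw [C_0, C_1]; linear_combination hu)).1
  · obtain ⟨n, hn⟩ := root_lem p _ _ hv key
    exact one_ne_zero (hI 1 (-(n : ZMod p)) (by rw [C_neg, C_1]; linear_combination hn)).1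

end Pool.Agent.ZPU.H95
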