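import Pool.Agent.ZPU.Stmts

/-!
# ZPU, row WZR: both roots of unity are tame
-/

set_option autoImplicit false

namespace Pool.Agent.ZPU.H95

open Polynomial Pool.Agent.ZPT Pool.Agent.ZP3

theorem ind_symm {p : ℕ} {A₁ B₁ A₂ B₂ : ℤ[X]} (h : Ind p A₁ B₁ A₂ B₂) : Ind p A₂ B₂ A₁ B₁ := by
  intro r s hrs
  obtain ⟨h1, h2⟩ := h s r (by rw [add_comm]; exact hrs)
  exact ⟨h2, h1⟩

theorem wzr (wzh : WZHStmt) (spl : SPLStmt) : WZRStmt := by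
  intro p hp K _ _ _ hK D A₁ B₁ A₂ B₂ hD hA₁ hB₁ hA₂ hB₂ hI t t₀ ζ₁ ζ₂ ht0 ht R₁ R₂ nA₁ nB₁
    nA₂ nB₂ h1 h2
  obtain ⟨y₁, w₁, rfl, T₁, c₁⟩ := spl p hp K ζ₁ R₁
  obtain ⟨y₂, w₂, rfl, T₂, c₂⟩ := spl p hp K ζ₂ R₂
  have H1 : ∀ a s : ℕ, 1 ≤ a → IsPrimitiveRoot w₁ (p ^ a) → w₂ = w₁ ^ s → False := by
    intro a s ha hw hs
    subst hs
    exact wzh p hp K hK D A₁ B₁ A₂ B₂ hD hA₁ hB₁ hA₂ hB₂ hI t t₀ y₁ y₂ w₁ a s ht0 ht T₁ T₂ ha hw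
      nA₁ nB₁ nA₂ nB₂ h1 h2
  have H2 : ∀ a s : ℕ, 1 ≤ a → IsPrimitiveRoot w₂ (p ^ a) → w₁ = w₂ ^ s → False := by
    intro a s ha hw hs
    subst hs
    exact wzh p hp K hK D A₂ B₂ A₁ B₁ hD hA₂ hB₂ hA₁ hB₁ (ind_symm hI) t t₀ y₂ y₁ w₂ a s ht0 ht
      T₂ T₁ ha hw nA₂ nB₂ nA₁ nB₁ h2 h1
  rcases c₁ with rfl | ⟨k₁, hk₁, q₁⟩ <;> rcases c₂ with rfl | ⟨k₂, hk₂, q₂⟩
  · rw [mul_one, mul_one]
    exact ⟨T₁, T₂⟩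
  · exact (H2 k₂ 0 hk₂ q₂ (pow_zero _).symm).elim
  · exact (H1 k₁ 0 hk₁ q₁ (pow_zero _).symm).elim
  · exfalso
    have : NeZero (p ^ k₁) := ⟨pow_ne_zero _ hp.ne_zero⟩
    have : NeZero (p ^ k₂) := ⟨pow_ne_zero _ hp.ne_zero⟩
    rcases le_total k₁ k₂ with h | h
    · have h3 : w₁ ^ (p ^ k₂) = 1 := by
        rw [← Nat.sub_add_cancel h, pow_add, mul_comm, pow_mul, q₁.pow_eq_one, one_pow]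
      obtain ⟨i, -, hi⟩ := q₂.eq_pow_of_pow_eq_one h3
      exact H2 k₂ i hk₂ q₂ hi.symm
    · have h3 : w₂ ^ (p ^ k₁) = 1 := by
        rw [← Nat.sub_add_cancel h, pow_add, mul_comm, pow_mul, q₂.pow_eq_one, one_pow]
      obtain ⟨i, -, hi⟩ := q₁.eq_pow_of_pow_eq_one h3
      exact H1 k₁ i hk₁ q₁ hi.symm

end Pool.Agent.ZPU.H95
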